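import Pool.Agent.Y859.SF.Stm

/-!
# SF-SMB: small prime factors in long windows
-/

set_option autoImplicit false

namespace Pool.Agent.Y907.SF

open Finset Pool.Agent.Y859.SF

theorem ev_rpow (a : ℝ) (ha : 0 < a) (c : ℝ) : ∀ᶠ N : ℕ in Filter.atTop, c ≤ (N : ℝ) ^ a :=
  ((tendsto_rpow_atTop ha).comp tendsto_natCast_atTop_atTop).eventually_ge_atTop c

theorem ev_log (c : ℝ) : ∀ᶠ N : ℕ in Filter.atTop, c ≤ Real.log N :=
  (Real.tendsto_log_atTop.comp tendsto_natCast_atTop_atTop).eventually_ge_atTop c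

theorem t_SMB (hv : S_VAR) (hm : S_MER) : S_SMB := by
  obtain ⟨C, hC, hv⟩ := hv
  obtain ⟨C₁, hC₁, hm⟩ := hm
  intro θ κ ε τ hκ hκθ hθ1 hε hτ
  have hθ : 0 < θ := hκ.trans hκθ
  have ha : 0 < (1 + θ) / 2 - κ := by linarith
  generalize ha_def : (1 + θ) / 2 - κ = a at ha
  obtain ⟨c, hc_def⟩ : ∃ c : ℝ, c = ε * τ ^ 2 / (20 * C) := ⟨_, rfl⟩
  have hc : 0 < c := by rw [hc_def]; positivity
  have hev : ∀ᶠ N : ℕ in Filter.atTop, 2 ≤ (N : ℝ) ^ a ∧ C₁ / κ ≤ Real.log N ∧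
      1 ≤ Real.log N ∧ 20 ≤ (N : ℝ) ^ θ ∧ 2 / c ≤ (N : ℝ) ^ θ ∧ 2 / c ≤ (N : ℝ) ^ (2 * κ) ∧
      1 ≤ N := by
    filter_upwards [ev_rpow a ha 2, ev_log (C₁ / κ), ev_log 1, ev_rpow θ hθ 20,
      ev_rpow θ hθ (2 / c), ev_rpow (2 * κ) (by positivity) (2 / c),
      Filter.eventually_ge_atTop 1] with N h1 h2 h3 h4 h5 h6 h7
    exact ⟨h1, h2, h3, h4, h5, h6, h7⟩
  obtain ⟨N₀, hN₀⟩ := Filter.eventually_atTop.1 hev
  refine ⟨N₀, fun N hN J hJ1 hJ2 e he => ?_⟩
  obtain ⟨h1, h2, h3, h4, h5, h6, h7⟩ := hN₀ N hN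
  have hNpos : (0 : ℝ) < N := by exact_mod_cast h7
  have hJpos : (1 : ℝ) ≤ J := by linarith
  have hJ : 1 ≤ J := by exact_mod_cast hJpos
  have hJ0 : (0 : ℝ) < J := by linarith
  obtain ⟨Q, hQ⟩ : ∃ Q : ℕ, Q = ⌊(N : ℝ) ^ a⌋₊ := ⟨_, rfl⟩
  have hQ2 : 2 ≤ Q := by rw [hQ]; exact Nat.le_floor (by exact_mod_cast h1)
  have hQle : (Q : ℝ) ≤ (N : ℝ) ^ a := by rw [hQ]; exact Nat.floor_le (by positivity)
  have hQpos : (0 : ℝ) < Q := by exact_mod_cast (by omega : 0 < Q)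
  have hlogQ : Real.log Q ≤ a * Real.log N := by
    rw [← Real.log_rpow hNpos]
    exact Real.log_le_log hQpos hQle
  have hlogQ0 : 0 ≤ Real.log Q := Real.log_natCast_nonneg Q
  have ha1 : a ≤ 1 := by linarith
  have hlogQ1 : Real.log Q ≤ Real.log N := by nlinarith
  -- the mean
  have hmean : ∑ q ∈ PQ Q, Real.log q * ((J : ℝ) / q) ≤ (1 + θ) / 2 * J * Real.log N := by
    have e1 : ∑ q ∈ PQ Q, Real.log q / q ≤
        ∑ p ∈ (Icc 1 Q).filter Nat.Prime, Real.log p / p := by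
      apply Finset.sum_le_sum_of_subset_of_nonneg
      · intro q hq
        simp only [PQ, mem_filter, mem_Icc] at hq ⊢
        exact ⟨⟨by omega, hq.1.2⟩, hq.2⟩
      · intro q _ _
        exact div_nonneg (Real.log_natCast_nonneg q) (Nat.cast_nonneg q)
    have e2 := (abs_le.1 (hm Q (by omega))).2
    have e4 : C₁ ≤ κ * Real.log N := by
      rw [div_le_iff₀ hκ] at h2
      linarith
    have e5 : ∑ q ∈ PQ Q, Real.log q / q ≤ (1 + θ) / 2 * Real.log N := by
      have e6 : a * Real.log N + κ * Real.log N = (1 + θ) / 2 * Real.log N := by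
        rw [← ha_def]
        ring
      linarith
    calc ∑ q ∈ PQ Q, Real.log q * ((J : ℝ) / q) = J * ∑ q ∈ PQ Q, Real.log q / q := by
          rw [Finset.mul_sum]
          apply Finset.sum_congr rfl
          intro q _
          ring
      _ ≤ J * ((1 + θ) / 2 * Real.log N) := by gcongr
      _ = (1 + θ) / 2 * J * Real.log N := by ring
  obtain ⟨D, hD⟩ : ∃ D : ℕ → ℝ, ∀ M, D M =
      ∑ q ∈ PQ Q, Real.log q * ((cnt e J q M : ℝ) - J / q) := ⟨_, fun _ => rfl⟩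
  have hsml : ∀ M, sml e J M ((N : ℝ) ^ a) =
      D M + ∑ q ∈ PQ Q, Real.log q * ((J : ℝ) / q) := by
    intro M
    rw [hD, ← Finset.sum_add_distrib, sml, ← hQ]
    apply Finset.sum_congr rfl
    intro q _
    ring
  have hvar := hv e N J Q hJ hQ2
  have hT : 0 < τ * J * Real.log N := by positivity
  refine ⟨(range N).filter (fun M => τ * J * Real.log N < D M), ?_, ?_⟩
  · have k1 : (((range N).filter (fun M => τ * J * Real.log N < D M)).card : ℝ) *
        (τ * J * Real.log N) ^ 2 ≤ C * (N + (Q : ℝ) ^ 2) * J * Real.log Q ^ 2 := by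
      calc (((range N).filter (fun M => τ * J * Real.log N < D M)).card : ℝ) *
            (τ * J * Real.log N) ^ 2
            = ∑ M ∈ (range N).filter (fun M => τ * J * Real.log N < D M),
              (τ * J * Real.log N) ^ 2 := by
            rw [Finset.sum_const, nsmul_eq_mul]
        _ ≤ ∑ M ∈ (range N).filter (fun M => τ * J * Real.log N < D M), (D M) ^ 2 := by
            apply Finset.sum_le_sum
            intro M hM
            rw [mem_filter] at hM
            exact pow_le_pow_left₀ hT.le hM.2.le 2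
        _ ≤ ∑ M ∈ range N, (D M) ^ 2 := by
            apply Finset.sum_le_sum_of_subset_of_nonneg (filter_subset _ _)
            intro M _ _
            positivity
        _ ≤ C * (N + (Q : ℝ) ^ 2) * J * Real.log Q ^ 2 := by
            refine le_of_eq_of_le ?_ hvar
            apply Finset.sum_congr rfl
            intro M _
            rw [hD]
    have k2 : (N : ℝ) ≤ c / 2 * ((N : ℝ) * (N : ℝ) ^ θ) := by
      rw [div_le_iff₀ hc] at h5
      nlinarith
    have k3 : (Q : ℝ) ^ 2 ≤ c / 2 * ((N : ℝ) * (N : ℝ) ^ θ) := by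
      have f1 : (Q : ℝ) ^ 2 ≤ ((N : ℝ) ^ a) ^ 2 := pow_le_pow_left₀ hQpos.le hQle 2
      have f2 : ((N : ℝ) ^ a) ^ 2 * (N : ℝ) ^ (2 * κ) = (N : ℝ) * (N : ℝ) ^ θ := by
        rw [← Real.rpow_natCast, ← Real.rpow_mul hNpos.le, ← Real.rpow_add hNpos]
        conv_rhs => rw [← Real.rpow_one (N : ℝ), ← Real.rpow_mul hNpos.le,
          ← Real.rpow_add hNpos]
        congr 1
        rw [← ha_def]
        push_cast
        ring
      rw [div_le_iff₀ hc] at h6
      have f3 : 0 ≤ ((N : ℝ) ^ a) ^ 2 := by positivity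
      have f4 : ((N : ℝ) ^ a) ^ 2 * 2 ≤ ((N : ℝ) ^ a) ^ 2 * ((N : ℝ) ^ (2 * κ) * c) :=
        mul_le_mul_of_nonneg_left h6 f3
      have f5 : ((N : ℝ) ^ a) ^ 2 * ((N : ℝ) ^ (2 * κ) * c) = c * ((N : ℝ) * (N : ℝ) ^ θ) := by
        rw [← f2]
        ring
      linarith
    have k4 : (N : ℝ) * (N : ℝ) ^ θ ≤ 20 * (N * J) := by nlinarith
    have k5 : C * (N + (Q : ℝ) ^ 2) ≤ ε * τ ^ 2 * (N * J) := by
      have g1 : (N : ℝ) + (Q : ℝ) ^ 2 ≤ c * (20 * (N * J)) := by
        have : c * ((N : ℝ) * (N : ℝ) ^ θ) ≤ c * (20 * (N * J)) :=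
          mul_le_mul_of_nonneg_left k4 hc.le
        linarith
      calc C * (N + (Q : ℝ) ^ 2) ≤ C * (c * (20 * (N * J))) :=
            mul_le_mul_of_nonneg_left g1 hC.le
        _ = ε * τ ^ 2 * (N * J) := by
            rw [hc_def]
            field_simp
    have k6 : C * (N + (Q : ℝ) ^ 2) * J * Real.log Q ^ 2 ≤
        ε * N * (τ * J * Real.log N) ^ 2 := by
      calc C * (N + (Q : ℝ) ^ 2) * J * Real.log Q ^ 2
          ≤ ε * τ ^ 2 * (N * J) * J * Real.log N ^ 2 := by gcongr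
        _ = ε * N * (τ * J * Real.log N) ^ 2 := by ring
    exact le_of_mul_le_mul_right (k1.trans k6) (by positivity)
  · intro M hM hMB
    have k1 : D M ≤ τ * J * Real.log N := by
      by_contra hcon
      exact hMB (mem_filter.2 ⟨mem_range.2 hM, lt_of_not_ge hcon⟩)
    rw [hsml]
    have k2 : ((1 + θ) / 2 + τ) * J * Real.log N =
        τ * J * Real.log N + (1 + θ) / 2 * J * Real.log N := by ring
    rw [k2]
    exact add_le_add k1 hmean

end Pool.Agent.Y907.SF
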